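import Pool.Agent.H98.QW.SelE

/-!
# From the entropy of a coordinate given the others to the entropy by blocks (row 366)

`nfb_of_hs`: if the coordinates `i ≠ n` of `ν` are full below every depth given the digits of all
coordinates to this depth, the entropy of the coordinate `n` by blocks is at most its entropy given
the other coordinates, up to `B E`.
-/

set_option autoImplicit false

namespace Pool.QC98

open Finset
open Pool.Agent.H49.Ent Pool.Agent.H32.Dense Pool.STK Pool.KS6 Pool.QC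

variable {c : ℕ} {Ω ζ : Type} [Fintype Ω] {p : Ω → ℝ}

/-- The digits below a depth, for the coordinates `i ≠ n`. -/
theorem CH_low (hp : IsLaw p) (ν : Ω → Fin c → ℤ) (n : Fin c) (e : ℕ) {η : Type} (Z : Ω → η) :
    CH p (fun ω (i : {i : Fin c // i ≠ n}) => ν ω i)
      (fun ω => ((fun i : {i : Fin c // i ≠ n} => ν ω i / 2 ^ e), Z ω)) ≤
      ((c : ℝ) - 1) * (e * Real.log 2) := by
  classical
  refine (CH_mono_left hp.nonneg (X' := fun ω (i : {i : Fin c // i ≠ n}) => ν ω i % 2 ^ e)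
    ?_).trans ?_
  · intro ω ω' _ _ h
    simp only [Prod.mk.injEq] at h
    funext i
    have h1 := congrFun h.1 i
    have h2 := congrFun h.2.1 i
    beta_reduce at h1 h2
    have h3 := Int.emod_add_mul_ediv (ν ω i) (2 ^ e)
    have h4 := Int.emod_add_mul_ediv (ν ω' i) (2 ^ e)
    rw [h1, h2] at h3
    exact h3.symm.trans h4
  · have h3 := CH_le_card hp.nonneg hp.sum_one
      (fun ω (i : {i : Fin c // i ≠ n}) => ν ω i % 2 ^ e)
      (fun ω => ((fun i : {i : Fin c // i ≠ n} => ν ω i / 2 ^ e), Z ω))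
      (fun _ => Fintype.piFinset fun _ => Finset.Ico (0 : ℤ) (2 ^ e)) (fun ω _ => by
        rw [Fintype.mem_piFinset]
        intro i
        rw [Finset.mem_Ico]
        exact ⟨Int.emod_nonneg _ (by positivity), Int.emod_lt_of_pos _ (by positivity)⟩)
    refine h3.trans (le_of_eq ?_)
    rw [Ex_const hp.sum_one, Fintype.card_piFinset]
    simp only [Int.card_Ico, sub_zero, Finset.prod_const, Finset.card_univ]
    have hc : 0 < c := n.pos
    have h5 : Fintype.card {i : Fin c // i ≠ n} = c - 1 := by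
      rw [Fintype.card_subtype_compl, Fintype.card_fin]
      simp
    rw [h5]
    have h6 : ((2 : ℤ) ^ e).toNat = 2 ^ e := by
      have : (2 : ℤ) ^ e = ((2 ^ e : ℕ) : ℤ) := by push_cast; rfl
      rw [this, Int.toNat_natCast]
    rw [h6]
    push_cast [Nat.cast_sub hc]
    rw [Real.log_pow, Real.log_pow, Nat.cast_sub hc]
    push_cast
    ring

/-- One block. -/
theorem block_hs (hp : IsLaw p) (ν : Ω → Fin c → ℤ) (Z : Ω → ζ) (n : Fin c) {X u v : ℕ}
    (huv : u ≤ v) (hv : v ≤ X) {E : ℝ}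
    (hs : ((c : ℝ) - 1) * (((X : ℝ) - v) * Real.log 2) - E ≤
      CH p (fun ω (i : {i : Fin c // i ≠ n}) => ν ω i)
        (fun ω => ((fun i => ν ω i / 2 ^ (X - v)), Z ω))) :
    CH p (fun ω => ν ω n / 2 ^ (X - v)) (fun ω => (ν ω n / 2 ^ (X - u),
      ((fun i : {i : Fin c // i ≠ n} => ν ω i / 2 ^ (X - v)), Z ω))) ≤
    CH p (fun ω => ν ω n / 2 ^ (X - v)) (fun ω => (ν ω n / 2 ^ (X - u),
      ((fun i : {i : Fin c // i ≠ n} => ν ω i), Z ω))) + E := by
  have h0 := hp.nonneg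
  obtain ⟨D, hD⟩ : ∃ D : Ω → ℤ, D = fun ω => ν ω n / 2 ^ (X - v) := ⟨_, rfl⟩
  obtain ⟨Y, hY⟩ : ∃ Y : Ω → {i : Fin c // i ≠ n} → ℤ, Y = fun ω i => ν ω i.1 := ⟨_, rfl⟩
  obtain ⟨a, ha⟩ : ∃ a : Ω → ℤ × (({i : Fin c // i ≠ n} → ℤ) × ζ),
      a = fun ω => (ν ω n / 2 ^ (X - u),
      ((fun i : {i : Fin c // i ≠ n} => ν ω i / 2 ^ (X - v)), Z ω)) := ⟨_, rfl⟩
  have hs' : ((c : ℝ) - 1) * (((X : ℝ) - v) * Real.log 2) - E ≤
      CH p Y (fun ω => ((fun i => ν ω i / 2 ^ (X - v)), Z ω)) := by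
    rw [hY]
    exact hs
  have e1 := CH_chain h0 D Y a
  have e2 := CH_chain h0 Y D a
  have e3 : CH p (fun ω => (D ω, Y ω)) a ≤ CH p (fun ω => (Y ω, D ω)) a := by
    refine CH_mono_left h0 ?_
    intro ω ω' _ _ h
    simp only [Prod.mk.injEq] at h ⊢
    exact ⟨h.1.2, h.1.1⟩
  have e3' : CH p (fun ω => (Y ω, D ω)) a ≤ CH p (fun ω => (D ω, Y ω)) a := by
    refine CH_mono_left h0 ?_
    intro ω ω' _ _ h
    simp only [Prod.mk.injEq] at h ⊢
    exact ⟨h.1.2, h.1.1⟩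
  have e4 : CH p Y a ≤ ((c : ℝ) - 1) * (((X : ℝ) - v) * Real.log 2) := by
    have h1 := CH_low hp ν n (X - v) (fun ω => (ν ω n / 2 ^ (X - u), Z ω))
    rw [Nat.cast_sub hv] at h1
    refine le_trans ?_ h1
    rw [hY, ha]
    refine CH_mono_cond h0 ?_
    intro ω ω' _ _ h
    simp only [Prod.mk.injEq] at h ⊢
    exact ⟨h.2.1, h.1, h.2.2⟩
  have e5 : CH p Y (fun ω => ((fun i => ν ω i / 2 ^ (X - v)), Z ω)) ≤
      CH p Y (fun ω => (D ω, a ω)) := by
    refine CH_mono_cond h0 ?_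
    intro ω ω' _ _ h
    rw [hD, ha]
    simp only [Prod.mk.injEq] at h ⊢
    have h1 := congrFun h.1
    exact ⟨h1 n, dig_mono huv (h1 n), funext fun i => h1 i, h.2⟩
  have e6 : CH p D (fun ω => (Y ω, a ω)) ≤ CH p D (fun ω => (ν ω n / 2 ^ (X - u), (Y ω, Z ω))) := by
    refine CH_mono_cond h0 ?_
    intro ω ω' _ _ h
    rw [ha] at h
    simp only [Prod.mk.injEq] at h ⊢
    exact ⟨h.2.1, h.1, h.2.2.2⟩
  have key : CH p D a ≤ CH p D (fun ω => (ν ω n / 2 ^ (X - u), (Y ω, Z ω))) + E := by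
    linarith
  rw [hD, hY, ha] at key
  exact key

/-- **The entropy of a coordinate by blocks.** -/
theorem nfb_of_hs (hp : IsLaw p) (ν : Ω → Fin c → ℤ) (Z : Ω → ζ) (n : Fin c) {X B : ℕ}
    (hB : 0 < B) {E : ℝ}
    (hs : ∀ d ≤ X, ((c : ℝ) - 1) * (((X : ℝ) - d) * Real.log 2) - E ≤
      CH p (fun ω (i : {i : Fin c // i ≠ n}) => ν ω i)
        (fun ω => ((fun i => ν ω i / 2 ^ (X - d)), Z ω))) :
    nfb p ν Z n X B ≤ CH p (fun ω => ν ω n)
      (fun ω => ((fun i : {i : Fin c // i ≠ n} => ν ω i), Z ω)) + B * E := by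
  have h0 := hp.nonneg
  obtain ⟨f, hf⟩ : ∃ f : ℕ → ℝ, f = fun j => CH p (fun ω => ν ω n / 2 ^ (X - j * X / B))
      (fun ω => ((fun i : {i : Fin c // i ≠ n} => ν ω i), Z ω)) + j * E := ⟨_, rfl⟩
  have h1 : ∀ j ∈ Finset.range B, CH p (fun ω => ν ω n / 2 ^ (X - (j + 1) * X / B))
        (fun ω => (ν ω n / 2 ^ (X - j * X / B),
          ((fun i : {i : Fin c // i ≠ n} => ν ω i / 2 ^ (X - (j + 1) * X / B)), Z ω))) ≤
      f (j + 1) - f j := by
    intro j hj
    have hj' := Finset.mem_range.1 hj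
    have k2 := dep_mono (X := X) (B := B) j
    have k3 := dep_top (X := X) hB hj'
    have h2 := block_hs hp ν Z n k2 k3 (hs _ k3)
    refine h2.trans ?_
    have e1 := CH_chain h0 (fun ω => ν ω n / 2 ^ (X - (j + 1) * X / B))
      (fun ω => ν ω n / 2 ^ (X - j * X / B))
      (fun ω => ((fun i : {i : Fin c // i ≠ n} => ν ω i), Z ω))
    have e2 : CH p (fun ω => (ν ω n / 2 ^ (X - (j + 1) * X / B), ν ω n / 2 ^ (X - j * X / B)))
        (fun ω => ((fun i : {i : Fin c // i ≠ n} => ν ω i), Z ω)) ≤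
        CH p (fun ω => ν ω n / 2 ^ (X - (j + 1) * X / B))
        (fun ω => ((fun i : {i : Fin c // i ≠ n} => ν ω i), Z ω)) := by
      refine CH_mono_left h0 ?_
      intro ω ω' _ _ h
      simp only [Prod.mk.injEq] at h ⊢
      exact ⟨h.1, dig_mono k2 h.1⟩
    rw [hf]
    beta_reduce
    push_cast
    linarith
  have h2 := Finset.sum_le_sum h1
  rw [Finset.sum_range_sub] at h2
  unfold nfb
  refine h2.trans ?_
  rw [hf]
  beta_reduce
  have h3 : CH p (fun ω => ν ω n / 2 ^ (X - B * X / B))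
      (fun ω => ((fun i : {i : Fin c // i ≠ n} => ν ω i), Z ω)) ≤
      CH p (fun ω => ν ω n) (fun ω => ((fun i : {i : Fin c // i ≠ n} => ν ω i), Z ω)) := by
    refine CH_mono_left h0 ?_
    intro ω ω' _ _ h
    simp only [Prod.mk.injEq] at h ⊢
    rw [h.1]
  have h4 := CH_nonneg h0 (fun ω => ν ω n / 2 ^ (X - 0 * X / B))
    (fun ω => ((fun i : {i : Fin c // i ≠ n} => ν ω i), Z ω))
  push_cast at h4 ⊢
  linarith

end Pool.QC98
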