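import Pool.Agent.H21.QW.Asm
import Pool.Agent.H70.QUAD.Fib

/-!
# Bounded selection of the covector (row 366)

`comb_b`: (FULL) gives (COMB) with the hypothesis by blocks and a covector with coordinates at most
`2 ^ (X / B)`. If no such covector kills the candidates, a short multiple of `e_n` is a combination
of the basis of candidates and of short multiples of the axes, so every block of digits of `R n` is
full given the other coordinates to the depth of the block.
-/

set_option autoImplicit false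

namespace Pool.QC98

open Finset Matrix
open Pool.Agent.H49.Ent Pool.Agent.H32.Dense Pool.STK Pool.FAD Pool.QC
open Pool.QUAD70 (ext colM)

/-! ### Deficits of three bodies -/

theorem DF_tri {n : ℕ} {Ω ζ : Type} [Fintype Ω] {p : Ω → ℝ} (h0 : ∀ ω, 0 ≤ p ω)
    (T A B : Ω → Matrix (Fin n) (Fin n) ℝ) (x : Ω → Fin n → ℝ) (Z : Ω → ζ) :
    DF p A B x Z + DF p T A x Z ≤ DF p T B x Z := by
  have h1 := mono_abs h0 (fun ω => cl (T ω) (x ω)) (fun ω => cl (A ω) (x ω))
    (fun ω => cl (B ω) (x ω)) Z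
  have e1 : Ex p (fun ω => lv (B ω) - lv (T ω)) =
      Ex p (fun ω => lv (B ω) - lv (A ω)) + Ex p (fun ω => lv (A ω) - lv (T ω)) := by
    rw [← Ex_add]
    congr 1
    funext ω
    ring
  unfold DF
  linarith

theorem lv_diag {n : ℕ} {d : Fin n → ℝ} (hd : ∀ i, 0 < d i) :
    lv (diagonal d) = ∑ i, Real.log (d i) := by
  unfold lv
  rw [Matrix.det_diagonal, abs_of_pos (Finset.prod_pos fun i _ => hd i),
    Real.log_prod fun i _ => (hd i).ne']

/-- The fine box of depth `d`. -/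
noncomputable def bx (c d : ℕ) : Matrix (Fin c) (Fin c) ℝ := diagonal fun _ => ((2 : ℝ) ^ d)⁻¹

/-- The box of depth `d`, of depth `a` in the direction `n`. -/
noncomputable def bn (c d a : ℕ) (n : Fin c) : Matrix (Fin c) (Fin c) ℝ :=
  diagonal fun i => if i = n then ((2 : ℝ) ^ a)⁻¹ else ((2 : ℝ) ^ d)⁻¹

variable {c : ℕ}

theorem bn_pos (d a : ℕ) (n i : Fin c) :
    (0 : ℝ) < if i = n then ((2 : ℝ) ^ a)⁻¹ else ((2 : ℝ) ^ d)⁻¹ := by
  split_ifs <;> positivity

theorem lv_bn_sub (a s : ℕ) (n : Fin c) :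
    lv (bn c (a + s) a n) - lv (bx c (a + s)) = s * Real.log 2 := by
  unfold bn bx
  rw [lv_diag (bn_pos (a + s) a n), lv_diag fun _ => by positivity, ← Finset.sum_sub_distrib,
    Finset.sum_eq_single n]
  · rw [if_pos rfl, Real.log_inv, Real.log_inv, Real.log_pow, Real.log_pow]
    push_cast
    ring
  · intro i _ hi
    rw [if_neg hi, sub_self]
  · intro h
    exact absurd (Finset.mem_univ n) h

/-- **One block.** -/
theorem block {Ω : Type} [Fintype Ω] {q : Ω → ℝ} (h0 : ∀ ω, 0 ≤ q ω) (h1 : ∑ ω, q ω = 1)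
    (x : Ω → Fin c → ℝ) {T A : Matrix (Fin c) (Fin c) ℝ} (hT : T.det ≠ 0) (hA : A.det ≠ 0)
    {n : Fin c} {a s : ℕ} {r w : Fin c → ℝ} {b c1 : ℝ} (hb : 0 ≤ b) (hc1 : 0 ≤ c1)
    (hr : ∀ l, |r l| ≤ b) (hw : ∀ l, |w l| ≤ b)
    (hv : ∀ i, ∑ l, A i l * r l + w i * ((2 : ℝ) ^ (a + s))⁻¹ =
      if i = n then ((2 : ℝ) ^ a)⁻¹ else 0)
    (i1 : Inc c1 T A) (i2 : Inc c1 T (bx c (a + s))) :
    s * Real.log 2 - CH q (fun ω => cl (bx c (a + s)) (x ω))
      (fun ω => cl (bn c (a + s) a n) (x ω)) ≤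
      DF q (fun _ => T) (fun _ => A) x (fun _ => ()) + CF c c1 (b + 1) 1 := by
  classical
  have hTa : (bx c (a + s)).det ≠ 0 := det_diag fun _ => by positivity
  have hBa : (bn c (a + s) a n).det ≠ 0 := det_diag (bn_pos (a + s) a n)
  obtain ⟨R0, hR0⟩ : ∃ R0 : Matrix (Fin c) (Fin c) ℝ,
      R0 = Matrix.of fun l j => if j = n then r l else 0 := ⟨_, rfl⟩
  obtain ⟨R1, hR1⟩ : ∃ R1 : Matrix (Fin c) (Fin c) ℝ,
      R1 = Matrix.of fun l j => if j = n then w l else if l = j then 1 else 0 := ⟨_, rfl⟩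
  have e1 : bn c (a + s) a n = A * R0 + bx c (a + s) * R1 := by
    ext i j
    rw [Matrix.add_apply, Matrix.mul_apply]
    unfold bx bn
    rw [Matrix.diagonal_mul, hR0, hR1]
    simp only [Matrix.of_apply, Matrix.diagonal_apply]
    by_cases hj : j = n
    · subst hj
      simp only [if_true]
      have h3 := hv i
      rw [mul_comm (w i)] at h3
      rw [h3]
      by_cases hi : i = j
      · simp [hi]
      · simp [hi]
    · simp only [hj, if_false, mul_zero, Finset.sum_const_zero, zero_add]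
      by_cases hi : i = j
      · subst hi
        simp [hj]
      · simp [hi]
  have hR : ∀ k i, ∑ j, |(if k = (0 : Fin 2) then R0 else R1) i j| ≤ b + 1 := by
    intro k i
    by_cases hk : k = 0
    · rw [if_pos hk, hR0]
      simp only [Matrix.of_apply]
      rw [Finset.sum_eq_single n]
      · rw [if_pos rfl]
        linarith [hr i]
      · intro j _ hj
        rw [if_neg hj, abs_zero]
      · intro h
        exact absurd (Finset.mem_univ n) h
    · rw [if_neg hk, hR1]
      simp only [Matrix.of_apply]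
      have h3 : ∀ j, |if j = n then w i else if i = j then (1 : ℝ) else 0| ≤
          (if j = n then |w i| else 0) + if i = j then 1 else 0 := by
        intro j
        by_cases hj : j = n
        · rw [if_pos hj, if_pos hj]
          split_ifs <;> simp
        · rw [if_neg hj, if_neg hj]
          split_ifs <;> simp
      refine (Finset.sum_le_sum fun j _ => h3 j).trans ?_
      rw [Finset.sum_add_distrib, Finset.sum_ite_eq', Finset.sum_ite_eq]
      simp only [Finset.mem_univ, if_true]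
      linarith [hw i]
  have key := full_sum (N := 1) h0 h1 (T := fun _ => T) (W := fun _ => bn c (a + s) a n)
    (fun k _ => if k = (0 : Fin 2) then A else bx c (a + s))
    (fun k _ => if k = (0 : Fin 2) then R0 else R1) x (fun _ => ())
    (fun _ _ _ _ _ => rfl) (fun _ _ _ _ _ => rfl) (fun _ _ _ _ _ _ => rfl) (fun _ => hT)
    (fun _ => hBa) (fun k _ => by
      by_cases hk : k = 0
      · rw [if_pos hk]
        exact hA
      · rw [if_neg hk]
        exact hTa) hc1 (by linarith : (0 : ℝ) ≤ b + 1) (fun k _ => by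
      by_cases hk : k = 0
      · rw [if_pos hk]
        exact i1
      · rw [if_neg hk]
        exact i2) (fun _ => by
      rw [e1, Fin.sum_univ_two]
      simp) (fun k _ i => hR k i)
  rw [Fin.sum_univ_two] at key
  simp only [if_true, Fin.isValue, one_ne_zero, if_false] at key
  have h4 := DF_tri h0 (fun _ => T) (fun _ => bx c (a + s)) (fun _ => bn c (a + s) a n) x
    (fun _ => ())
  have h5 : DF q (fun _ => bx c (a + s)) (fun _ => bn c (a + s) a n) x (fun _ => ()) =
      s * Real.log 2 - CH q (fun ω => cl (bx c (a + s)) (x ω))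
        (fun ω => cl (bn c (a + s) a n) (x ω)) := by
    unfold DF
    rw [Ex_const h1, lv_bn_sub]
    congr 1
    refine CH_congr h0 ?_ ?_ ?_ ?_
    · intro ω ω' _ _ e
      exact (Prod.ext_iff.1 e).1
    · intro ω ω' _ _ e
      exact (Prod.ext_iff.1 e).1
    · intro ω ω' _ _ e
      exact (Prod.ext_iff.1 e).1
    · intro ω ω' _ _ e
      exact Prod.ext e rfl
  rw [← h5]
  linarith

/-! ### The coefficients -/

/-- A combination of columns and axes, in the basis `A`. -/
theorem coef {ι : Type*} (col : ι → Fin c → ℝ) {A : Matrix (Fin c) (Fin c) ℝ} (hA : A.det ≠ 0)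
    (hcol : ∀ v b, |(A⁻¹ *ᵥ col v) b| ≤ 1) {τ α : ℝ} (hτ : 0 ≤ τ) (n : Fin c)
    (σ : Fin c → ι ⊕ Fin c) (t : Fin c → ℝ) (ht : ∀ k, |t k| ≤ 1)
    (h : ∀ l, ∑ k, t k * ext col (fun _ => τ) (σ k) l = if l = n then α else 0) :
    ∃ r w : Fin c → ℝ, (∀ l, |r l| ≤ c) ∧ (∀ l, |w l| ≤ c * τ) ∧
      ∀ i, ∑ l, A i l * r l + w i = if i = n then α else 0 := by
  classical
  refine ⟨fun l => ∑ k, t k * (Sum.elim (fun v => (A⁻¹ *ᵥ col v) l) (fun _ => 0) (σ k)),
    fun i => ∑ k, t k * (Sum.elim (fun _ => 0) (fun l => (Pi.single l τ : Fin c → ℝ) i) (σ k)),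
    ?_, ?_, ?_⟩
  · intro l
    refine (Finset.abs_sum_le_sum_abs _ _).trans ?_
    refine (Finset.sum_le_sum (g := fun _ : Fin c => (1 : ℝ)) fun k _ => ?_).trans (by simp)
    rw [abs_mul]
    refine mul_le_one₀ (ht k) (abs_nonneg _) ?_
    rcases σ k with v | l'
    · exact hcol v l
    · simp
  · intro i
    refine (Finset.abs_sum_le_sum_abs _ _).trans ?_
    refine (Finset.sum_le_sum (g := fun _ : Fin c => τ) fun k _ => ?_).trans (by simp)
    rw [abs_mul]
    refine (mul_le_mul (ht k) (?_ : _ ≤ τ) (abs_nonneg _) zero_le_one).trans (by rw [one_mul])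
    rcases σ k with v | l'
    · simpa using hτ
    · simp only [Sum.elim_inr, Pi.single_apply]
      split_ifs
      · rw [abs_of_nonneg hτ]
      · simpa using hτ
  · intro i
    rw [← h i]
    have e1 : ∑ l, A i l * ∑ k, t k * (Sum.elim (fun v => (A⁻¹ *ᵥ col v) l) (fun _ => 0) (σ k)) =
        ∑ k, t k * ∑ l, A i l * (Sum.elim (fun v => (A⁻¹ *ᵥ col v) l) (fun _ => 0) (σ k)) := by
      simp only [Finset.mul_sum]
      rw [Finset.sum_comm]
      refine Finset.sum_congr rfl fun k _ => Finset.sum_congr rfl fun l _ => ?_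
      ring
    rw [e1, ← Finset.sum_add_distrib]
    refine Finset.sum_congr rfl fun k _ => ?_
    rw [← mul_add]
    congr 1
    rcases σ k with v | l'
    · simp only [Sum.elim_inl, Pool.QUAD70.ext, add_zero]
      have e4 : A *ᵥ (A⁻¹ *ᵥ col v) = col v := by
        rw [Matrix.mulVec_mulVec, Matrix.mul_nonsing_inv _ (isUnit_iff_ne_zero.2 hA),
          Matrix.one_mulVec]
      exact congrFun e4 i
    · simp [Pool.QUAD70.ext]

/-! ### Digits -/

theorem cl_diag {d : Fin c → ℝ} (hd : ∀ i, 0 < d i) (x : Fin c → ℝ) (i : Fin c) :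
    cl (diagonal d) x i = ⌊x i / d i⌋ := by
  unfold cl
  rw [inv_diag hd, Matrix.mulVec_diagonal, inv_mul_eq_div]

theorem floor_dig (a : ℤ) {X d : ℕ} (hd : d ≤ X) :
    ⌊(a : ℝ) / 2 ^ X / ((2 : ℝ) ^ d)⁻¹⌋ = a / 2 ^ (X - d) := by
  obtain ⟨e, rfl⟩ : ∃ e, X = d + e := ⟨X - d, by omega⟩
  have h1 : (a : ℝ) / 2 ^ (d + e) / ((2 : ℝ) ^ d)⁻¹ = (a : ℝ) / ((2 ^ e : ℕ) : ℝ) := by
    rw [pow_add]
    push_cast
    field_simp
  rw [h1, add_tsub_cancel_left]
  rw [Int.floor_div_natCast, Int.floor_intCast]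
  push_cast
  rfl

/-- Coarser digits are determined by finer ones. -/
theorem dig_mono {a b : ℤ} {X d e : ℕ} (hde : d ≤ e) (h : a / 2 ^ (X - e) = b / 2 ^ (X - e)) :
    a / 2 ^ (X - d) = b / 2 ^ (X - d) := by
  have e1 : X - d = (X - e) + ((X - d) - (X - e)) := by omega
  rw [e1, pow_add, ← Int.ediv_ediv_of_nonneg (by positivity), h,
    Int.ediv_ediv_of_nonneg (by positivity)]

/-- One block of digits, in boxes. -/
theorem block_dig {Ω : Type} [Fintype Ω] {p : Ω → ℝ} (h0 : ∀ ω, 0 ≤ p ω) (R : Ω → Fin c → ℤ)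
    (n : Fin c) {X u a v : ℕ} (h1 : u ≤ a) (h2 : a ≤ v) (h3 : v ≤ X) :
    CH p (fun ω => cl (bx c v) (fun i => (R ω i : ℝ) / 2 ^ X))
      (fun ω => cl (bn c v a n) (fun i => (R ω i : ℝ) / 2 ^ X)) ≤
    CH p (fun ω => R ω n / 2 ^ (X - v)) (fun ω => (R ω n / 2 ^ (X - u),
      ((fun i : {i : Fin c // i ≠ n} => R ω i / 2 ^ (X - v)), ()))) := by
  have e1 : ∀ ω i, cl (bx c v) (fun i => (R ω i : ℝ) / 2 ^ X) i = R ω i / 2 ^ (X - v) := by
    intro ω i
    unfold bx
    rw [cl_diag fun _ => by positivity]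
    exact floor_dig _ h3
  have e2 : ∀ ω i, cl (bn c v a n) (fun i => (R ω i : ℝ) / 2 ^ X) i =
      if i = n then R ω i / 2 ^ (X - a) else R ω i / 2 ^ (X - v) := by
    intro ω i
    unfold bn
    rw [cl_diag (bn_pos v a n)]
    by_cases hi : i = n
    · rw [if_pos hi, if_pos hi]
      exact floor_dig _ (h2.trans h3)
    · rw [if_neg hi, if_neg hi]
      exact floor_dig _ h3
  refine (CH_mono_left h0 (X' := fun ω => R ω n / 2 ^ (X - v)) ?_).trans
    (CH_mono_cond h0 ?_)
  · intro ω ω' _ _ h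
    simp only [Prod.mk.injEq] at h
    funext i
    refine (e1 ω i).trans (Eq.trans ?_ (e1 ω' i).symm)
    by_cases hi : i = n
    · rw [hi]
      exact h.1
    · have := congrFun h.2 i
      rw [e2, e2, if_neg hi, if_neg hi] at this
      exact this
  · intro ω ω' _ _ h
    beta_reduce at h
    simp only [Prod.mk.injEq, and_true]
    refine ⟨?_, ?_⟩
    · have := congrFun h n
      rw [e2, e2, if_pos rfl, if_pos rfl] at this
      exact dig_mono h1 this
    · funext i
      have := congrFun h i.1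
      rw [e2, e2, if_neg i.2, if_neg i.2] at this
      exact this

/-! ### All blocks -/

theorem dep_le {X B : ℕ} (hB : 0 < B) (j : ℕ) : (j + 1) * X / B ≤ j * X / B + (X / B + 1) := by
  rw [add_mul, one_mul, Nat.add_div hB]
  split_ifs <;> omega

theorem dep_mono {X B : ℕ} (j : ℕ) : j * X / B ≤ (j + 1) * X / B :=
  Nat.div_le_div_right (Nat.mul_le_mul_right _ (Nat.le_succ j))

theorem dep_top {X B j : ℕ} (hB : 0 < B) (hj : j < B) : (j + 1) * X / B ≤ X := by
  calc (j + 1) * X / B ≤ B * X / B := Nat.div_le_div_right (Nat.mul_le_mul_right _ hj)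
    _ = X := Nat.mul_div_cancel_left X hB

/-- The entropy by blocks is large if the boxes of depth at least `a0` are full. -/
theorem nfb_ge {Ω : Type} [Fintype Ω] {p : Ω → ℝ} (h0 : ∀ ω, 0 ≤ p ω) (R : Ω → Fin c → ℤ)
    (n : Fin c) {X B a0 : ℕ} (hB : 0 < B) {E : ℝ} (hE : 0 ≤ E)
    (h : ∀ a s : ℕ, a0 ≤ a → a + s ≤ X → s ≤ X / B + 1 →
      s * Real.log 2 - CH p (fun ω => cl (bx c (a + s)) (fun i => (R ω i : ℝ) / 2 ^ X))
        (fun ω => cl (bn c (a + s) a n) (fun i => (R ω i : ℝ) / 2 ^ X)) ≤ E) :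
    ((X : ℝ) - a0) * Real.log 2 - B * E ≤ nfb p R (fun _ => ()) n X B := by
  have hl : 0 < Real.log 2 := Real.log_pos (by norm_num)
  obtain ⟨f, hf⟩ : ∃ f : ℕ → ℝ, f = fun j => ((max (j * X / B) a0 : ℕ) : ℝ) * Real.log 2 - j * E :=
    ⟨_, rfl⟩
  have h1 : ∀ j ∈ Finset.range B, f (j + 1) - f j ≤
      CH p (fun ω => R ω n / 2 ^ (X - (j + 1) * X / B))
        (fun ω => (R ω n / 2 ^ (X - j * X / B),
          ((fun i : {i : Fin c // i ≠ n} => R ω i / 2 ^ (X - (j + 1) * X / B)), ()))) := by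
    intro j hj
    have hj' := Finset.mem_range.1 hj
    have k1 := dep_le (X := X) hB j
    have k2 := dep_mono (X := X) (B := B) j
    have k3 := dep_top (X := X) hB hj'
    have e0 : f (j + 1) - f j = (((max ((j + 1) * X / B) a0 : ℕ) : ℝ) -
        ((max (j * X / B) a0 : ℕ) : ℝ)) * Real.log 2 - E := by
      rw [hf]
      push_cast
      ring
    rw [e0]
    rcases le_or_gt a0 ((j + 1) * X / B) with h2 | h2
    · obtain ⟨a, ha⟩ : ∃ a, a = max (j * X / B) a0 := ⟨_, rfl⟩
      have ha1 : j * X / B ≤ a := ha ▸ le_max_left _ _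
      have ha2 : a0 ≤ a := ha ▸ le_max_right _ _
      have ha3 : a ≤ (j + 1) * X / B := by
        rw [ha]
        exact max_le k2 h2
      obtain ⟨s, hs⟩ : ∃ s, a + s = (j + 1) * X / B := ⟨(j + 1) * X / B - a, by omega⟩
      have h3 := h a s ha2 (by omega) (by omega)
      have h4 := block_dig h0 R n ha1 (Nat.le_add_right a s) (by omega : a + s ≤ X)
      rw [← ha, max_eq_left h2, ← hs]
      have e1 : ((a + s : ℕ) : ℝ) - (a : ℝ) = s := by
        push_cast
        ring
      rw [e1]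
      linarith
    · rw [max_eq_right h2.le, max_eq_right (k2.trans h2.le), sub_self, zero_mul, zero_sub]
      exact (neg_nonpos.2 hE).trans (CH_nonneg h0 _ _)
  have h2 := Finset.sum_le_sum h1
  rw [Finset.sum_range_sub] at h2
  unfold nfb
  refine le_trans ?_ h2
  rw [hf]
  simp only [Nat.cast_zero, zero_mul, sub_zero, Nat.zero_div]
  rw [Nat.mul_div_cancel_left X hB, max_eq_right (Nat.zero_le a0)]
  have h3 : (X : ℝ) ≤ ((max X a0 : ℕ) : ℝ) := by exact_mod_cast le_max_left X a0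
  nlinarith

/-! ### The selection -/

/-- **(FULL) gives (COMB) with a covector bounded by `2 ^ (X / B)`.** -/
theorem comb_b {k : ℕ} (h : FullStmt c k) : CombB c k := by
  classical
  intro n c0 x1 C B hx hxc hC hB
  have hBr : (0 : ℝ) < B := by exact_mod_cast hB
  have hgap : 0 < c0 - x1 := by linarith
  set η : ℝ := (c0 - x1) / (4 * B) with hη
  have hη0 : 0 < η := by positivity
  obtain ⟨m, ka, ε0, C1, X0, hka, hε, hC1, H⟩ := h C η hC hη0
  have hl2 : (0.6931471803 : ℝ) < Real.log 2 := Real.log_two_gt_d9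
  obtain ⟨K, hK⟩ : ∃ K : ℝ, K = |CF c (c : ℝ) (2 * c + 1) 1| := ⟨_, rfl⟩
  have hK0 : 0 ≤ K := hK ▸ abs_nonneg _
  obtain ⟨X1, hX1⟩ := exists_nat_gt ((Real.log 2 + B * K) / ((c0 - x1) / 4))
  refine ⟨m, ka, ε0, C1, max X0 X1, hka, hε, hC1, ?_⟩
  intro D X hX hD Ω _ p R hp _hR hA hnf
  have hr := H D X ((le_max_left _ _).trans hX) hD Ω _ p R hp hA
  have hX' : Real.log 2 + B * K < (c0 - x1) / 4 * X := by
    have e1 : (X1 : ℝ) ≤ X := by exact_mod_cast (le_max_right _ _).trans hX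
    have e2 : (Real.log 2 + B * K) / ((c0 - x1) / 4) < X := hX1.trans_le e1
    rw [div_lt_iff₀ (by linarith)] at e2
    linarith
  have h2X : (0 : ℝ) < 2 ^ X := by positivity
  by_contra hne
  push Not at hne
  -- the family
  set q1 : ℝ := ((2 : ℝ) ^ (-(ka * X))) ^ C1 with hq1
  set S : Set (Fin c → ℝ) := {δ | ∃ w, D.Cand X m q1 0 w δ} with hS
  have hSf : S.Finite := by
    have : S = {δ | D.Cand X m q1 0 true δ} ∪ {δ | D.Cand X m q1 0 false δ} := by
      ext δ
      constructor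
      · rintro ⟨w, hw⟩
        cases w
        · exact Or.inr hw
        · exact Or.inl hw
      · rintro (hw | hw)
        · exact ⟨_, hw⟩
        · exact ⟨_, hw⟩
    rw [this]
    exact (cand_fin _ _ _ _ _ _).union (cand_fin _ _ _ _ _ _)
  have : Finite S := hSf
  let F : S ⊕ Fin c → Fin c → ℝ := fun z => match z with
    | .inl δ => δ.1
    | .inr i => Pi.single i ((2 : ℝ) ^ X)⁻¹
  have hax : (mat fun b => F (Sum.inr b)) = Matrix.diagonal fun _ => ((2 : ℝ) ^ X)⁻¹ := by
    ext i j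
    simp only [mat, Matrix.of_apply, F, Matrix.diagonal_apply, Pi.single_apply]
  obtain ⟨f, hfd, hf⟩ := exists_basis F (fun b => Sum.inr b) (by
    rw [hax, Matrix.det_diagonal]
    exact Finset.prod_ne_zero_iff.2 fun _ _ => (inv_pos.2 h2X).ne')
  set A := mat fun b => F (f b) with hAd
  have hinv : ∀ i j, |A⁻¹ i j| ≤ 2 ^ X := by
    intro i j
    have e := hf (Sum.inr j) i
    have e1 : F (Sum.inr j) = Pi.single j ((2 : ℝ) ^ X)⁻¹ := rfl
    rw [e1, Matrix.mulVec_single] at e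
    simp only [Pi.smul_apply, MulOpposite.smul_eq_mul_unop, MulOpposite.unop_op,
      Matrix.col_apply] at e
    rw [abs_mul, abs_of_pos (inv_pos.2 h2X), ← div_eq_mul_inv, div_le_one h2X] at e
    exact e
  have hfull := hr (fun b => F (f b)) (by
    intro b
    rcases hb : f b with δ | i
    · left
      exact δ.2
    · exact Or.inr ⟨i, rfl⟩) hfd hinv
  -- the deficit of `A`
  set t : Fin c → ℝ := fun _ => ((2 : ℝ) ^ X)⁻¹ with ht
  have ht0 : ∀ i, 0 < t i := fun i => inv_pos.2 h2X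
  have hInc : Inc (c : ℝ) (Matrix.diagonal t) A := by
    intro i
    calc ∑ j, |(A⁻¹ * Matrix.diagonal t) i j| ≤ ∑ _j : Fin c, (1 : ℝ) := by
          refine Finset.sum_le_sum fun j _ => ?_
          rw [Matrix.mul_diagonal, abs_mul, abs_of_pos (ht0 j)]
          change |A⁻¹ i j| * ((2 : ℝ) ^ X)⁻¹ ≤ 1
          rw [← div_eq_mul_inv, div_le_one h2X]
          exact hinv i j
      _ = _ := by simp
  have hdT : (Matrix.diagonal t).det ≠ 0 := det_diag ht0
  have hT1 : (((2 : ℝ) ^ X)⁻¹ • (1 : Matrix (Fin c) (Fin c) ℝ)) = Matrix.diagonal t := by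
    rw [ht, ← Matrix.diagonal_one, ← Matrix.diagonal_smul]
    congr 1
    funext i
    simp
  rw [hT1] at hfull
  have hDF := Pool.CLO.DF_le_Ph hp (fun ω i => (R ω i : ℝ) / 2 ^ X) (Matrix.diagonal t) A
  -- the combination
  have hM1 : (1 : ℝ) ≤ (2 : ℝ) ^ ((X : ℝ) / B) := Real.one_le_rpow (by norm_num) (by positivity)
  obtain ⟨M, hM⟩ : ∃ M : ℝ, M = (2 : ℝ) ^ ((X : ℝ) / B) := ⟨_, rfl⟩
  obtain ⟨α, hα⟩ : ∃ α : ℝ, α = (2 : ℝ) ^ (-(x1 * X)) := ⟨_, rfl⟩
  rw [← hM] at hM1 hne
  rw [← hα] at hne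
  have hM0 : 0 < M := by linarith
  have hα0 : 0 < α := by
    rw [hα]
    positivity
  obtain ⟨σ, tt, htt, hcomb⟩ := Pool.QUAD70.fib (fun δ : S => δ.1) n (α := α) (M := M)
    (τ := fun _ => α / M) hα0 (fun _ => by positivity) (fun _ _ => by
      rw [mul_div_cancel₀ _ hM0.ne']) (by
    intro ν hν1 hν2
    obtain ⟨w, δ, h1, h2⟩ := hne ν hν1 (fun i => by
      by_cases hi : i = n
      · rw [hi, hν1, abs_one]
        exact hM1
      · exact hν2 i hi)
    exact ⟨⟨δ, w, h1⟩, h2.le⟩)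
  obtain ⟨r, w, hr1, hw1, hv1⟩ := coef (fun δ : S => δ.1) hfd (fun v b => hf (Sum.inl v) b)
    (by positivity : 0 ≤ α / M) n σ tt htt hcomb
  -- the blocks
  obtain ⟨a0, ha0⟩ : ∃ a0, a0 = ⌈x1 * X⌉₊ := ⟨_, rfl⟩
  have hXn : (0 : ℝ) ≤ X := Nat.cast_nonneg X
  have ha1 : x1 * X ≤ a0 := ha0 ▸ Nat.le_ceil _
  have ha2 : (a0 : ℝ) < x1 * X + 1 := ha0 ▸ Nat.ceil_lt_add_one (by positivity)
  have key := nfb_ge hp.nonneg R n (X := X) (B := B) (a0 := a0) hB
    (E := η * X + K) (by positivity) (by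
    intro a s ha hs hsB
    have hcn : (0 : ℝ) ≤ c := Nat.cast_nonneg c
    have e1 : ((2 : ℝ) ^ a)⁻¹ ≤ α := by
      rw [hα, ← Real.rpow_natCast, ← Real.rpow_neg (by norm_num)]
      refine Real.rpow_le_rpow_of_exponent_le (by norm_num) ?_
      have : (a0 : ℝ) ≤ a := by exact_mod_cast ha
      linarith
    obtain ⟨κ, hκ⟩ : ∃ κ : ℝ, κ = ((2 : ℝ) ^ a)⁻¹ / α := ⟨_, rfl⟩
    have hκ0 : 0 < κ := by
      rw [hκ]
      positivity
    have hκ1 : κ ≤ 1 := by
      rw [hκ, div_le_one hα0]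
      exact e1
    have hκα : κ * α = ((2 : ℝ) ^ a)⁻¹ := by
      rw [hκ, div_mul_cancel₀ _ hα0.ne']
    have h2s : (2 : ℝ) ^ s ≤ 2 * M := by
      have e2 : (s : ℝ) ≤ (X : ℝ) / B + 1 := by
        have e3 : (s : ℝ) ≤ ((X / B : ℕ) : ℝ) + 1 := by exact_mod_cast hsB
        have e4 : ((X / B : ℕ) : ℝ) ≤ (X : ℝ) / B := Nat.cast_div_le
        linarith
      calc (2 : ℝ) ^ s = (2 : ℝ) ^ (s : ℝ) := (Real.rpow_natCast _ _).symm
        _ ≤ (2 : ℝ) ^ ((X : ℝ) / B + 1) := Real.rpow_le_rpow_of_exponent_le (by norm_num) e2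
        _ = 2 * M := by
            rw [Real.rpow_add (by norm_num), Real.rpow_one, hM]
            ring
    have hb := block hp.nonneg hp.sum_one (fun ω i => (R ω i : ℝ) / 2 ^ X) hdT hfd (n := n)
      (a := a) (s := s) (r := fun l => κ * r l) (w := fun l => κ * (2 : ℝ) ^ (a + s) * w l)
      (b := 2 * c) (c1 := c) (by positivity) hcn (by
        intro l
        rw [abs_mul, abs_of_pos hκ0]
        have := mul_le_mul hκ1 (hr1 l) (abs_nonneg _) zero_le_one
        linarith) (by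
        intro l
        rw [abs_mul, abs_of_pos (by positivity : 0 < κ * (2 : ℝ) ^ (a + s))]
        calc κ * (2 : ℝ) ^ (a + s) * |w l| ≤ κ * (2 : ℝ) ^ (a + s) * (c * (α / M)) :=
              mul_le_mul_of_nonneg_left (hw1 l) (by positivity)
          _ = c * ((κ * α) * (2 : ℝ) ^ a * ((2 : ℝ) ^ s / M)) := by
              rw [pow_add]
              ring
          _ = c * ((2 : ℝ) ^ s / M) := by
              rw [hκα, inv_mul_cancel₀ (by positivity), one_mul]
          _ ≤ c * 2 := by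
              refine mul_le_mul_of_nonneg_left ?_ hcn
              rw [div_le_iff₀ hM0]
              exact h2s
          _ = 2 * c := by ring) (by
        intro i
        have e2 := hv1 i
        have e3 : ∑ l, A i l * (κ * r l) = κ * ∑ l, A i l * r l := by
          rw [Finset.mul_sum]
          refine Finset.sum_congr rfl fun l _ => ?_
          ring
        have e4 : κ * (2 : ℝ) ^ (a + s) * w i * ((2 : ℝ) ^ (a + s))⁻¹ = κ * w i := by
          have : (2 : ℝ) ^ (a + s) ≠ 0 := by positivity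
          field_simp
        rw [e3, e4, ← mul_add, e2]
        split_ifs
        · exact hκα
        · ring) hInc (by
        unfold bx
        refine (Pool.FEK74.inc_diag ht0 (fun _ => by positivity) (c := c) fun i => ?_)
        have hc1 : (1 : ℝ) ≤ c := by
          have : 0 < c := i.pos
          exact_mod_cast this
        have e2 : ((2 : ℝ) ^ X)⁻¹ ≤ ((2 : ℝ) ^ (a + s))⁻¹ :=
          inv_anti₀ (by positivity) (pow_le_pow_right₀ (by norm_num) hs)
        have e3 : (0 : ℝ) < ((2 : ℝ) ^ (a + s))⁻¹ := by positivity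
        change ((2 : ℝ) ^ X)⁻¹ ≤ _
        nlinarith)
    have hK' := le_abs_self (CF c (c : ℝ) (2 * c + 1) 1)
    rw [← hK] at hK'
    linarith)
  -- the numbers
  have e5 : (B : ℝ) * (η * X + K) = (c0 - x1) / 4 * X + B * K := by
    rw [hη]
    field_simp
  rw [e5] at key
  have e6 : ((X : ℝ) - a0) * Real.log 2 ≥ (X - (x1 * X + 1)) * Real.log 2 :=
    mul_le_mul_of_nonneg_right (by linarith) (by linarith)
  have e7 : (c0 - x1) * X * (Real.log 2) ≥ (c0 - x1) * X * (1 / 2) := by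
    refine mul_le_mul_of_nonneg_left (by linarith) (by positivity)
  nlinarith

end Pool.QC98
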