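import Pool.Agent.H98.QW.SelB

/-!
# Bounded selection of the covector for a random body (P4, the short fibre)

`sel_rand`: `A ω` is a body determined by the context `Z`, `R / 2 ^ X` is nearly full in it. If the
coordinate `n` of `R` is not full given the others and `Z` (by blocks), then with positive
probability a covector `ν` with `ν n = 1` and coordinates at most `2 ^ (X / B)` nearly kills `A ω`.
-/

set_option autoImplicit false

namespace Pool.QC98

open Finset Matrix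
open Pool.Agent.H49.Ent Pool.Agent.H32.Dense Pool.STK Pool.KS6 Pool.FAD Pool.QC
open Pool.QUAD70 (colM)

variable {c : ℕ}

/-- A covector with coordinates at most `2 ^ (X / B)` nearly kills the columns of `A`. -/
def Gc (n : Fin c) (X B : ℕ) (x1 : ℝ) (A : Matrix (Fin c) (Fin c) ℝ) : Prop :=
  ∃ ν : Fin c → ℝ, ν n = 1 ∧ (∀ i, |ν i| ≤ (2 : ℝ) ^ ((X : ℝ) / B)) ∧
    ∀ b, |∑ i, ν i * A i b| ≤ (2 : ℝ) ^ (-(x1 * X))

theorem cl_bx (x : Fin c → ℝ) (d : ℕ) (i : Fin c) : cl (bx c d) x i = ⌊2 ^ d * x i⌋ := by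
  unfold bx
  rw [cl_diag fun _ => by positivity]
  congr 1
  field_simp

theorem cl_bn (x : Fin c → ℝ) (d a : ℕ) (n i : Fin c) :
    cl (bn c d a n) x i = if i = n then ⌊2 ^ a * x i⌋ else ⌊2 ^ d * x i⌋ := by
  unfold bn
  rw [cl_diag (bn_pos d a n)]
  by_cases hi : i = n
  · rw [if_pos hi, if_pos hi]
    congr 1
    field_simp
  · rw [if_neg hi, if_neg hi]
    congr 1
    field_simp

theorem floor_fine (x : ℝ) (a s : ℕ) : ⌊(2 : ℝ) ^ a * x⌋ = ⌊(2 : ℝ) ^ (a + s) * x⌋ / 2 ^ s := by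
  have h1 : (2 : ℝ) ^ a * x = (2 : ℝ) ^ (a + s) * x / ((2 ^ s : ℕ) : ℝ) := by
    rw [pow_add]
    push_cast
    field_simp
  rw [h1, Int.floor_div_natCast]
  push_cast
  rfl

/-- **One block, random body.** -/
theorem blockE {Ω ζ : Type} [Fintype Ω] {q : Ω → ℝ} (h0 : ∀ ω, 0 ≤ q ω) (h1 : ∑ ω, q ω = 1)
    (x : Ω → Fin c → ℝ) (Z : Ω → ζ) {T : Matrix (Fin c) (Fin c) ℝ}
    {A : Ω → Matrix (Fin c) (Fin c) ℝ} (hT : T.det ≠ 0) (hA : ∀ ω, (A ω).det ≠ 0)
    (hdA : Det q Z A) (P : Matrix (Fin c) (Fin c) ℝ → Prop)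
    {n : Fin c} {a s : ℕ} {r w : Ω → Fin c → ℝ} {b c1 : ℝ} (hb : 0 ≤ b) (hc1 : 0 ≤ c1)
    (hr : ∀ ω l, |r ω l| ≤ b) (hw : ∀ ω l, |w ω l| ≤ b)
    (hv : ∀ ω, P (A ω) → ∀ i, ∑ l, A ω i l * r ω l + w ω i * ((2 : ℝ) ^ (a + s))⁻¹ =
      if i = n then ((2 : ℝ) ^ a)⁻¹ else 0)
    (i1 : ∀ ω, Inc c1 T (A ω)) (i2 : Inc c1 T (bx c (a + s))) :
    Ex q (fun ω => ind (P (A ω))) * (s * Real.log 2) -
      CH q (fun ω => cl (bx c (a + s)) (x ω))
        (fun ω => (cl (bn c (a + s) a n) (x ω), Z ω)) ≤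
      DF q (fun _ => T) A x Z + CF c c1 (b + 1) 1 := by
  classical
  have hTa : (bx c (a + s)).det ≠ 0 := det_diag fun _ => by positivity
  have hBa : (bn c (a + s) a n).det ≠ 0 := det_diag (bn_pos (a + s) a n)
  obtain ⟨R0, hR0⟩ : ∃ R0 : Ω → Matrix (Fin c) (Fin c) ℝ,
      R0 = fun ω => if P (A ω) then Matrix.of fun l j => if j = n then r ω l else 0 else 0 :=
    ⟨_, rfl⟩
  obtain ⟨R1, hR1⟩ : ∃ R1 : Ω → Matrix (Fin c) (Fin c) ℝ,
      R1 = fun ω => if P (A ω) then Matrix.of fun l j => if j = n then w ω l else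
        if l = j then 1 else 0 else 1 := ⟨_, rfl⟩
  obtain ⟨W, hW⟩ : ∃ W : Ω → Matrix (Fin c) (Fin c) ℝ,
      W = fun ω => if P (A ω) then bn c (a + s) a n else bx c (a + s) := ⟨_, rfl⟩
  have e1 : ∀ ω, W ω = A ω * R0 ω + bx c (a + s) * R1 ω := by
    intro ω
    rw [hW, hR0, hR1]
    by_cases hP : P (A ω)
    · simp only [if_pos hP]
      ext i j
      rw [Matrix.add_apply, Matrix.mul_apply]
      unfold bx bn
      rw [Matrix.diagonal_mul]
      simp only [Matrix.of_apply, Matrix.diagonal_apply]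
      by_cases hj : j = n
      · subst hj
        simp only [if_true]
        have h3 := hv ω hP i
        rw [mul_comm (w ω i)] at h3
        rw [h3]
        by_cases hi : i = j
        · simp [hi]
        · simp [hi]
      · simp only [hj, if_false, mul_zero, Finset.sum_const_zero, zero_add]
        by_cases hi : i = j
        · subst hi
          simp [hj]
        · simp [hi]
    · simp only [if_neg hP, Matrix.mul_zero, Matrix.mul_one, zero_add]
  have hR : ∀ k ω i, ∑ j, |(if k = (0 : Fin 2) then R0 ω else R1 ω) i j| ≤ b + 1 := by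
    intro k ω i
    by_cases hP : P (A ω)
    · by_cases hk : k = 0
      · rw [if_pos hk, hR0]
        simp only [if_pos hP, Matrix.of_apply]
        rw [Finset.sum_eq_single n]
        · rw [if_pos rfl]
          linarith [hr ω i]
        · intro j _ hj
          rw [if_neg hj, abs_zero]
        · intro h
          exact absurd (Finset.mem_univ n) h
      · rw [if_neg hk, hR1]
        simp only [if_pos hP, Matrix.of_apply]
        have h3 : ∀ j, |if j = n then w ω i else if i = j then (1 : ℝ) else 0| ≤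
            (if j = n then |w ω i| else 0) + if i = j then 1 else 0 := by
          intro j
          by_cases hj : j = n
          · rw [if_pos hj, if_pos hj]
            split_ifs <;> simp
          · rw [if_neg hj, if_neg hj]
            split_ifs <;> simp
        refine (Finset.sum_le_sum fun j _ => h3 j).trans ?_
        rw [Finset.sum_add_distrib, Finset.sum_ite_eq', Finset.sum_ite_eq]
        simp only [Finset.mem_univ, if_true]
        linarith [hw ω i]
    · by_cases hk : k = 0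
      · rw [if_pos hk, hR0]
        simp only [if_neg hP, Matrix.zero_apply, abs_zero, Finset.sum_const_zero]
        linarith
      · rw [if_neg hk, hR1]
        simp only [if_neg hP, Matrix.one_apply]
        have h3 : ∀ j, |if i = j then (1 : ℝ) else 0| = if i = j then 1 else 0 := by
          intro j
          split_ifs <;> simp
        simp only [h3, Finset.sum_ite_eq, Finset.mem_univ, if_true]
        linarith
  have hdW : Det q Z W := by
    intro ω ω' h2 h3 h4
    have := hdA ω ω' h2 h3 h4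
    rw [hW]
    simp only [this]
  have key := full_sum (N := 1) h0 h1 (T := fun _ => T) (W := W)
    (fun k ω => if k = (0 : Fin 2) then A ω else bx c (a + s))
    (fun k ω => if k = (0 : Fin 2) then R0 ω else R1 ω) x Z
    (fun _ _ _ _ _ => rfl) hdW (fun k ω ω' h2 h3 h4 => by
      by_cases hk : k = 0
      · simp only [if_pos hk]
        exact hdA ω ω' h2 h3 h4
      · simp only [if_neg hk]) (fun _ => hT)
    (fun ω => by
      rw [hW]
      by_cases hP : P (A ω)
      · simp only [if_pos hP]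
        exact hBa
      · simp only [if_neg hP]
        exact hTa) (fun k ω => by
      by_cases hk : k = 0
      · rw [if_pos hk]
        exact hA ω
      · rw [if_neg hk]
        exact hTa) hc1 (by linarith : (0 : ℝ) ≤ b + 1) (fun k ω => by
      by_cases hk : k = 0
      · rw [if_pos hk]
        exact i1 ω
      · rw [if_neg hk]
        exact i2) (fun ω => by
      rw [e1 ω, Fin.sum_univ_two]
      simp) (fun k ω i => hR k ω i)
  rw [Fin.sum_univ_two] at key
  simp only [if_true, Fin.isValue, one_ne_zero, if_false] at key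
  have h4 := DF_tri h0 (fun _ => T) (fun _ => bx c (a + s)) W x Z
  have h5 : Ex q (fun ω => lv (W ω) - lv (bx c (a + s))) =
      Ex q (fun ω => ind (P (A ω))) * (s * Real.log 2) := by
    unfold Ex
    rw [Finset.sum_mul]
    refine Finset.sum_congr rfl fun ω _ => ?_
    rw [hW]
    unfold ind
    by_cases hP : P (A ω)
    · simp only [if_pos hP]
      rw [lv_bn_sub]
      ring
    · simp only [if_neg hP]
      ring
  have h6 : CH q (fun ω => cl (bx c (a + s)) (x ω)) (fun ω => (cl (W ω) (x ω), Z ω)) ≤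
      CH q (fun ω => cl (bx c (a + s)) (x ω)) (fun ω => (cl (bn c (a + s) a n) (x ω), Z ω)) := by
    refine CH_mono_cond h0 ?_
    intro ω ω' h2 h3 h4
    simp only [Prod.mk.injEq] at h4 ⊢
    obtain ⟨h5, h6⟩ := h4
    refine ⟨?_, h6⟩
    have h7 := hdA ω ω' h2 h3 h6
    rw [hW] at h5
    simp only [← h7] at h5
    by_cases hP : P (A ω)
    · simp only [if_pos hP] at h5
      exact h5
    · simp only [if_neg hP] at h5
      funext i
      have h8 := congrFun h5 i
      rw [cl_bx, cl_bx] at h8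
      rw [cl_bn, cl_bn]
      by_cases hi : i = n
      · rw [if_pos hi, if_pos hi, floor_fine _ a s, floor_fine (x ω' i) a s, h8]
      · rw [if_neg hi, if_neg hi, h8]
  have h7 : DF q (fun _ => bx c (a + s)) W x Z = Ex q (fun ω => lv (W ω) - lv (bx c (a + s))) -
      CH q (fun ω => cl (bx c (a + s)) (x ω)) (fun ω => (cl (W ω) (x ω), Z ω)) := rfl
  rw [h5] at h7
  linarith

/-- One block of digits, in boxes, with a context. -/
theorem block_digE {Ω ζ : Type} [Fintype Ω] {p : Ω → ℝ} (h0 : ∀ ω, 0 ≤ p ω)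
    (R : Ω → Fin c → ℤ) (Z : Ω → ζ) (n : Fin c) {X u a v : ℕ} (h1 : u ≤ a) (h2 : a ≤ v)
    (h3 : v ≤ X) :
    CH p (fun ω => cl (bx c v) (fun i => (R ω i : ℝ) / 2 ^ X))
      (fun ω => (cl (bn c v a n) (fun i => (R ω i : ℝ) / 2 ^ X), Z ω)) ≤
    CH p (fun ω => R ω n / 2 ^ (X - v)) (fun ω => (R ω n / 2 ^ (X - u),
      ((fun i : {i : Fin c // i ≠ n} => R ω i / 2 ^ (X - v)), Z ω))) := by
  have e1 : ∀ ω i, cl (bx c v) (fun i => (R ω i : ℝ) / 2 ^ X) i = R ω i / 2 ^ (X - v) := by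
    intro ω i
    unfold bx
    rw [cl_diag fun _ => by positivity]
    exact floor_dig _ h3
  have e2 : ∀ ω i, cl (bn c v a n) (fun i => (R ω i : ℝ) / 2 ^ X) i =
      if i = n then R ω i / 2 ^ (X - a) else R ω i / 2 ^ (X - v) := by
    intro ω i
    unfold bn
    rw [cl_diag (bn_pos v a n)]
    by_cases hi : i = n
    · rw [if_pos hi, if_pos hi]
      exact floor_dig _ (h2.trans h3)
    · rw [if_neg hi, if_neg hi]
      exact floor_dig _ h3
  refine (CH_mono_left h0 (X' := fun ω => R ω n / 2 ^ (X - v)) ?_).trans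
    (CH_mono_cond h0 ?_)
  · intro ω ω' _ _ h
    simp only [Prod.mk.injEq] at h
    funext i
    refine (e1 ω i).trans (Eq.trans ?_ (e1 ω' i).symm)
    by_cases hi : i = n
    · rw [hi]
      exact h.1
    · have := congrFun h.2.1 i
      rw [e2, e2, if_neg hi, if_neg hi] at this
      exact this
  · intro ω ω' _ _ h
    simp only [Prod.mk.injEq] at h ⊢
    refine ⟨?_, ?_, h.2⟩
    · have := congrFun h.1 n
      rw [e2, e2, if_pos rfl, if_pos rfl] at this
      exact dig_mono h1 this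
    · funext i
      have := congrFun h.1 i.1
      rw [e2, e2, if_neg i.2, if_neg i.2] at this
      exact this

/-- The entropy by blocks is large if the boxes of depth at least `a0` are full. -/
theorem nfb_geE {Ω ζ : Type} [Fintype Ω] {p : Ω → ℝ} (h0 : ∀ ω, 0 ≤ p ω) (R : Ω → Fin c → ℤ)
    (Z : Ω → ζ) (n : Fin c) {X B a0 : ℕ} (hB : 0 < B) {E P : ℝ} (hE : 0 ≤ E) (hP : 0 ≤ P)
    (h : ∀ a s : ℕ, a0 ≤ a → a + s ≤ X → s ≤ X / B + 1 →
      P * (s * Real.log 2) - CH p (fun ω => cl (bx c (a + s)) (fun i => (R ω i : ℝ) / 2 ^ X))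
        (fun ω => (cl (bn c (a + s) a n) (fun i => (R ω i : ℝ) / 2 ^ X), Z ω)) ≤ E) :
    P * (((X : ℝ) - a0) * Real.log 2) - B * E ≤ nfb p R Z n X B := by
  have hl : 0 < Real.log 2 := Real.log_pos (by norm_num)
  obtain ⟨f, hf⟩ : ∃ f : ℕ → ℝ,
      f = fun j => P * (((max (j * X / B) a0 : ℕ) : ℝ) * Real.log 2) - j * E := ⟨_, rfl⟩
  have h1 : ∀ j ∈ Finset.range B, f (j + 1) - f j ≤
      CH p (fun ω => R ω n / 2 ^ (X - (j + 1) * X / B))
        (fun ω => (R ω n / 2 ^ (X - j * X / B),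
          ((fun i : {i : Fin c // i ≠ n} => R ω i / 2 ^ (X - (j + 1) * X / B)), Z ω))) := by
    intro j hj
    have hj' := Finset.mem_range.1 hj
    have k1 := dep_le (X := X) hB j
    have k2 := dep_mono (X := X) (B := B) j
    have k3 := dep_top (X := X) hB hj'
    have e0 : f (j + 1) - f j = P * ((((max ((j + 1) * X / B) a0 : ℕ) : ℝ) -
        ((max (j * X / B) a0 : ℕ) : ℝ)) * Real.log 2) - E := by
      rw [hf]
      push_cast
      ring
    rw [e0]
    rcases le_or_gt a0 ((j + 1) * X / B) with h2 | h2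
    · obtain ⟨a, ha⟩ : ∃ a, a = max (j * X / B) a0 := ⟨_, rfl⟩
      have ha1 : j * X / B ≤ a := ha ▸ le_max_left _ _
      have ha2 : a0 ≤ a := ha ▸ le_max_right _ _
      have ha3 : a ≤ (j + 1) * X / B := by
        rw [ha]
        exact max_le k2 h2
      obtain ⟨s, hs⟩ : ∃ s, a + s = (j + 1) * X / B := ⟨(j + 1) * X / B - a, by omega⟩
      have h3 := h a s ha2 (by omega) (by omega)
      have h4 := block_digE h0 R Z n ha1 (Nat.le_add_right a s) (by omega : a + s ≤ X)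
      rw [← ha, max_eq_left h2, ← hs]
      have e1 : ((a + s : ℕ) : ℝ) - (a : ℝ) = s := by
        push_cast
        ring
      rw [e1]
      linarith
    · rw [max_eq_right h2.le, max_eq_right (k2.trans h2.le), sub_self, zero_mul, mul_zero,
        zero_sub]
      exact (neg_nonpos.2 hE).trans (CH_nonneg h0 _ _)
  have h2 := Finset.sum_le_sum h1
  rw [Finset.sum_range_sub] at h2
  unfold nfb
  refine le_trans ?_ h2
  rw [hf]
  simp only [Nat.cast_zero, zero_mul, sub_zero, Nat.zero_div]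
  rw [Nat.mul_div_cancel_left X hB, max_eq_right (Nat.zero_le a0)]
  have h3 : (X : ℝ) ≤ ((max X a0 : ℕ) : ℝ) := by exact_mod_cast le_max_left X a0
  have h4 : P * (((X : ℝ) - a0) * Real.log 2) ≤
      P * ((((max X a0 : ℕ) : ℝ) - a0) * Real.log 2) :=
    mul_le_mul_of_nonneg_left (mul_le_mul_of_nonneg_right (by linarith) hl.le) hP
  nlinarith

/-- A finer context. -/
theorem nfb_mono {Ω ζ ζ' : Type} [Fintype Ω] {p : Ω → ℝ} (h0 : ∀ ω, 0 ≤ p ω) (R : Ω → Fin c → ℤ)
    {Z : Ω → ζ} {Y : Ω → ζ'} (h : Det p Z Y) (n : Fin c) (X B : ℕ) :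
    nfb p R Z n X B ≤ nfb p R Y n X B := by
  unfold nfb
  refine Finset.sum_le_sum fun j _ => CH_mono_cond h0 ?_
  intro ω ω' a b e
  simp only [Prod.mk.injEq] at e ⊢
  exact ⟨e.1, e.2.1, h ω ω' a b e.2.2⟩

/-- If no bounded covector kills the columns of `A`, a short multiple of `e_n` is in the sum of `A`
and of the box of the axes. -/
theorem coef_fib {A : Matrix (Fin c) (Fin c) ℝ} (hA : A.det ≠ 0) (n : Fin c) {α M : ℝ}
    (hα : 0 < α) (hM : 0 < M)
    (h : ∀ ν : Fin c → ℝ, ν n = 1 → (∀ l, l ≠ n → |ν l| ≤ M) → ∃ b, α ≤ |∑ i, ν i * A i b|)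
    {a s : ℕ} (e1 : ((2 : ℝ) ^ a)⁻¹ ≤ α) (h2s : (2 : ℝ) ^ s ≤ 2 * M) :
    ∃ r w : Fin c → ℝ, (∀ l, |r l| ≤ 2 * c) ∧ (∀ l, |w l| ≤ 2 * c) ∧
      ∀ i, ∑ l, A i l * r l + w i * ((2 : ℝ) ^ (a + s))⁻¹ =
        if i = n then ((2 : ℝ) ^ a)⁻¹ else 0 := by
  classical
  have hcn : (0 : ℝ) ≤ c := Nat.cast_nonneg c
  obtain ⟨σ, tt, htt, hcomb⟩ := Pool.QUAD70.fib (fun b : Fin c => fun i => A i b) n (α := α)
    (M := M) (τ := fun _ => α / M) hα (fun _ => by positivity) (fun _ _ => by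
      rw [mul_div_cancel₀ _ hM.ne']) (fun ν hν1 hν2 => h ν hν1 hν2)
  obtain ⟨r, w, hr1, hw1, hv1⟩ := coef (fun b : Fin c => fun i => A i b) hA (fun v b => by
      have e2 : (fun i => A i v) = A *ᵥ Pi.single v 1 := by
        funext i
        simp
      rw [e2, Matrix.mulVec_mulVec, Matrix.nonsing_inv_mul _ (isUnit_iff_ne_zero.2 hA),
        Matrix.one_mulVec, Pi.single_apply]
      split_ifs <;> simp)
    (by positivity : 0 ≤ α / M) n σ tt htt hcomb
  obtain ⟨κ, hκ⟩ : ∃ κ : ℝ, κ = ((2 : ℝ) ^ a)⁻¹ / α := ⟨_, rfl⟩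
  have hκ0 : 0 < κ := by
    rw [hκ]
    positivity
  have hκ1 : κ ≤ 1 := by
    rw [hκ, div_le_one hα]
    exact e1
  have hκα : κ * α = ((2 : ℝ) ^ a)⁻¹ := by
    rw [hκ, div_mul_cancel₀ _ hα.ne']
  refine ⟨fun l => κ * r l, fun l => κ * (2 : ℝ) ^ (a + s) * w l, ?_, ?_, ?_⟩
  · intro l
    rw [abs_mul, abs_of_pos hκ0]
    have := mul_le_mul hκ1 (hr1 l) (abs_nonneg _) zero_le_one
    linarith
  · intro l
    rw [abs_mul, abs_of_pos (by positivity : 0 < κ * (2 : ℝ) ^ (a + s))]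
    calc κ * (2 : ℝ) ^ (a + s) * |w l| ≤ κ * (2 : ℝ) ^ (a + s) * (c * (α / M)) :=
          mul_le_mul_of_nonneg_left (hw1 l) (by positivity)
      _ = c * ((κ * α) * (2 : ℝ) ^ a * ((2 : ℝ) ^ s / M)) := by
          rw [pow_add]
          ring
      _ = c * ((2 : ℝ) ^ s / M) := by
          rw [hκα, inv_mul_cancel₀ (by positivity), one_mul]
      _ ≤ c * 2 := by
          refine mul_le_mul_of_nonneg_left ?_ hcn
          rw [div_le_iff₀ hM]
          exact h2s
      _ = 2 * c := by ring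
  · intro i
    have e2 := hv1 i
    have e3 : ∑ l, A i l * (κ * r l) = κ * ∑ l, A i l * r l := by
      rw [Finset.mul_sum]
      refine Finset.sum_congr rfl fun l _ => ?_
      ring
    have e4 : κ * (2 : ℝ) ^ (a + s) * w i * ((2 : ℝ) ^ (a + s))⁻¹ = κ * w i := by
      have : (2 : ℝ) ^ (a + s) ≠ 0 := by positivity
      field_simp
    rw [e3, e4, ← mul_add, e2]
    split_ifs
    · exact hκα
    · ring

/-- The constant of `sel_rand`. -/
noncomputable def Kr (c : ℕ) (c1 : ℝ) : ℝ := |CF c c1 (2 * c + 1) 1| + |Cc c c1|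

/-- **Short fibre, random body.** -/
theorem sel_rand {Ω ζ : Type} [Fintype Ω] {p : Ω → ℝ} (hp : IsLaw p) (R : Ω → Fin c → ℤ)
    (Z : Ω → ζ) (A : Ω → Matrix (Fin c) (Fin c) ℝ) (hdA : Det p Z A) (hA : ∀ ω, (A ω).det ≠ 0)
    {X B : ℕ} {c1 : ℝ} (hc1 : 1 ≤ c1)
    (hI : ∀ ω, Inc c1 (Matrix.diagonal fun _ => ((2 : ℝ) ^ X)⁻¹) (A ω)) (n : Fin c)
    (hB : 0 < B) {x1 : ℝ} (hx : 0 ≤ x1) :
    Ex p (fun ω => ind (¬ Gc n X B x1 (A ω))) * ((X - x1 * X - 1) * Real.log 2) -
      B * (DF p (fun _ => Matrix.diagonal fun _ => ((2 : ℝ) ^ X)⁻¹) A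
        (fun ω i => (R ω i : ℝ) / 2 ^ X) Z + Kr c c1) ≤ nfb p R Z n X B := by
  classical
  have h2X : (0 : ℝ) < 2 ^ X := by positivity
  have hXn : (0 : ℝ) ≤ X := Nat.cast_nonneg X
  have hl : 0 < Real.log 2 := Real.log_pos (by norm_num)
  obtain ⟨t, ht⟩ : ∃ t : Fin c → ℝ, t = fun _ => ((2 : ℝ) ^ X)⁻¹ := ⟨_, rfl⟩
  have ht0 : ∀ i, 0 < t i := by
    intro i
    rw [ht]
    exact inv_pos.2 h2X
  rw [← ht] at hI ⊢
  have hdT : (Matrix.diagonal t).det ≠ 0 := det_diag ht0
  obtain ⟨M, hM⟩ : ∃ M : ℝ, M = (2 : ℝ) ^ ((X : ℝ) / B) := ⟨_, rfl⟩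
  obtain ⟨α, hα⟩ : ∃ α : ℝ, α = (2 : ℝ) ^ (-(x1 * X)) := ⟨_, rfl⟩
  have hM1 : 1 ≤ M := by
    rw [hM]
    exact Real.one_le_rpow (by norm_num) (by positivity)
  have hM0 : 0 < M := by linarith
  have hα0 : 0 < α := by
    rw [hα]
    positivity
  obtain ⟨a0, ha0⟩ : ∃ a0, a0 = ⌈x1 * X⌉₊ := ⟨_, rfl⟩
  have ha1 : x1 * X ≤ a0 := ha0 ▸ Nat.le_ceil _
  have ha2 : (a0 : ℝ) < x1 * X + 1 := ha0 ▸ Nat.ceil_lt_add_one (by positivity)
  have hP0 : 0 ≤ Ex p (fun ω => ind (¬ Gc n X B x1 (A ω))) := by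
    unfold Ex
    refine Finset.sum_nonneg fun ω _ => mul_nonneg (hp.nonneg ω) ?_
    beta_reduce
    unfold ind
    split_ifs <;> simp
  have hDF0 := DF_ge hp.nonneg hp.sum_one (T := fun _ => Matrix.diagonal t) (V := A)
    (fun ω i => (R ω i : ℝ) / 2 ^ X) Z (fun _ _ _ _ _ => rfl) hdA (fun _ => hdT) hA
    (by linarith : (0 : ℝ) ≤ c1) hI
  have hCc := le_abs_self (Cc c c1)
  have hCF := le_abs_self (CF c c1 (2 * c + 1) 1)
  have hCF0 := abs_nonneg (CF c c1 (2 * c + 1) 1)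
  have key := nfb_geE hp.nonneg R Z n (X := X) (B := B) (a0 := a0) hB
    (E := DF p (fun _ => Matrix.diagonal t) A (fun ω i => (R ω i : ℝ) / 2 ^ X) Z + Kr c c1)
    (by
      unfold Kr
      linarith) hP0 (by
    intro a s ha hs hsB
    have hcn : (0 : ℝ) ≤ c := Nat.cast_nonneg c
    have e1 : ((2 : ℝ) ^ a)⁻¹ ≤ α := by
      rw [hα, ← Real.rpow_natCast, ← Real.rpow_neg (by norm_num)]
      refine Real.rpow_le_rpow_of_exponent_le (by norm_num) ?_
      have : (a0 : ℝ) ≤ a := by exact_mod_cast ha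
      linarith
    have h2s : (2 : ℝ) ^ s ≤ 2 * M := by
      have e2 : (s : ℝ) ≤ (X : ℝ) / B + 1 := by
        have e3 : (s : ℝ) ≤ ((X / B : ℕ) : ℝ) + 1 := by exact_mod_cast hsB
        have e4 : ((X / B : ℕ) : ℝ) ≤ (X : ℝ) / B := Nat.cast_div_le
        linarith
      calc (2 : ℝ) ^ s = (2 : ℝ) ^ (s : ℝ) := (Real.rpow_natCast _ _).symm
        _ ≤ (2 : ℝ) ^ ((X : ℝ) / B + 1) := Real.rpow_le_rpow_of_exponent_le (by norm_num) e2
        _ = 2 * M := by
            rw [Real.rpow_add (by norm_num), Real.rpow_one, hM]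
            ring
    have hch : ∀ ω, ∃ r w : Fin c → ℝ, (∀ l, |r l| ≤ 2 * c) ∧ (∀ l, |w l| ≤ 2 * c) ∧
        (¬ Gc n X B x1 (A ω) → ∀ i, ∑ l, A ω i l * r l + w i * ((2 : ℝ) ^ (a + s))⁻¹ =
          if i = n then ((2 : ℝ) ^ a)⁻¹ else 0) := by
      intro ω
      by_cases hG : Gc n X B x1 (A ω)
      · exact ⟨0, 0, fun l => by simp, fun l => by simp, fun h => absurd hG h⟩
      · obtain ⟨r, w, k1, k2, k3⟩ := coef_fib (hA ω) n hα0 hM0 (by
          intro ν hν1 hν2
          by_contra hne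
          push Not at hne
          refine hG ⟨ν, hν1, fun i => ?_, fun b => ?_⟩
          · rw [← hM]
            by_cases hi : i = n
            · rw [hi, hν1, abs_one]
              exact hM1
            · exact hν2 i hi
          · rw [← hα]
            exact (hne b).le) e1 h2s
        exact ⟨r, w, k1, k2, fun _ => k3⟩
    choose r w k1 k2 k3 using hch
    have hb := blockE hp.nonneg hp.sum_one (fun ω i => (R ω i : ℝ) / 2 ^ X) Z hdT hA hdA
      (fun A => ¬ Gc n X B x1 A) (n := n) (a := a) (s := s) (r := r) (w := w) (b := 2 * c)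
      (c1 := c1) (by positivity) (by linarith) k1 k2 k3 hI (by
        unfold bx
        refine (Pool.FEK74.inc_diag ht0 (fun _ => by positivity) (c := c1) fun i => ?_)
        have e2 : ((2 : ℝ) ^ X)⁻¹ ≤ ((2 : ℝ) ^ (a + s))⁻¹ :=
          inv_anti₀ (by positivity) (pow_le_pow_right₀ (by norm_num) hs)
        have e3 : (0 : ℝ) < ((2 : ℝ) ^ (a + s))⁻¹ := by positivity
        rw [ht]
        change ((2 : ℝ) ^ X)⁻¹ ≤ _
        nlinarith)
    unfold Kr
    have := abs_nonneg (Cc c c1)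
    linarith)
  refine le_trans ?_ key
  have e6 : Ex p (fun ω => ind (¬ Gc n X B x1 (A ω))) * ((X - x1 * X - 1) * Real.log 2) ≤
      Ex p (fun ω => ind (¬ Gc n X B x1 (A ω))) * (((X : ℝ) - a0) * Real.log 2) :=
    mul_le_mul_of_nonneg_left (mul_le_mul_of_nonneg_right (by linarith) hl.le) hP0
  linarith

end Pool.QC98
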